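import Pool.Agent.Helper53.LG.Final

/-!
# Mapping tori of linearly growing automorphisms of free groups are linear

Let `b_1, …, b_n` be a basis of the free group `F_n` and let `ℤ` act on `F_n` so that its generator `φ` sends
every `b_i` to `u_i b_i v_i`, where `u_i` and `v_i` are arbitrary elements of `⟨b_j : j < i⟩` fixed by `φ`. Then every
group with a subgroup of finite index which embeds in `F_n ⋊ ℤ` is linear over a field of characteristic zero.
-/

namespace Pool.Agent.Results.MP_1f284c_al.LinearGrowth

/-- **Main theorem.** -/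
theorem result (n : ℕ) (φ : Multiplicative ℤ →* MulAut (FreeGroup (Fin n)))
    (u v : Fin n → FreeGroup (Fin n))
    (hu : ∀ i, u i ∈ Subgroup.closure (FreeGroup.of '' {j : Fin n | j < i}))
    (hv : ∀ i, v i ∈ Subgroup.closure (FreeGroup.of '' {j : Fin n | j < i}))
    (hφ : ∀ i, φ (Multiplicative.ofAdd 1) (FreeGroup.of i) = u i * FreeGroup.of i * v i)
    (fu : ∀ i, φ (Multiplicative.ofAdd 1) (u i) = u i)
    (fv : ∀ i, φ (Multiplicative.ofAdd 1) (v i) = v i)
    (G : Type) [Group G] (H : Subgroup G) [H.FiniteIndex]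
    (e : H →* SemidirectProduct (FreeGroup (Fin n)) (Multiplicative ℤ) φ)
    (he : Function.Injective e) :
    ∃ (K : Type) (_ : Field K) (m : ℕ) (f : G →* Matrix.GeneralLinearGroup (Fin m) K),
      CharZero K ∧ Function.Injective f :=
  Pool.Agent.Helper53.LG.lg_linear n φ u v hu hv hφ fu fv G H e he

end Pool.Agent.Results.MP_1f284c_al.LinearGrowth
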