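import Pool.Agent.Helper45.HS.Fin

/-!
# Linearity of `F_N ⋊ ℤ` for automorphisms with visible steps

Let `b_1, …, b_N` be a basis of the free group `F_N` and let the generator `φ` of `ℤ` map `⟨b_1, …, b_m⟩` to itself and
`b_i` to `u_i b_i v_i` for `i > m`, with arbitrary `u_i, v_i ∈ L_i = ⟨b_j : j < i⟩`. Suppose that for each `i > m` the
elements `u_i⁻¹ t` and `v_i t` of `L_i ⋊ ⟨t⟩` are (a) conjugate by an element of `L_i` or (b) have different images under a
homomorphism to `ℤ`, and that `⟨b_1, …, b_m⟩ ⋊ ⟨t⟩` has a complex representation in which no nontrivial element of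
`⟨b_1, …, b_m⟩` has trace equal to the dimension (this is void for `m = 0`). Then every group with a subgroup of finite
index which embeds in `F_N ⋊ ℤ` is linear over a field of characteristic zero.
-/

namespace Pool.Agent.Results.MP_1f284c_al.VisibleSteps

/-- **Main theorem.** -/
theorem result (N m : ℕ) (φ : Multiplicative ℤ →* MulAut (FreeGroup (Fin N)))
    (hbL : ∀ j : Fin N, (j : ℕ) < m → φ (Multiplicative.ofAdd 1) (FreeGroup.of j) ∈
      Subgroup.closure (FreeGroup.of '' {j : Fin N | (j : ℕ) < m}))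
    (hb : ∃ (d : ℕ) (ρ : FreeGroup (Fin N) →* Matrix.GeneralLinearGroup (Fin d) ℂ)
      (T : Matrix.GeneralLinearGroup (Fin d) ℂ),
      (∀ j : Fin N, (j : ℕ) < m →
        ρ (φ (Multiplicative.ofAdd 1) (FreeGroup.of j)) = T * ρ (FreeGroup.of j) * T⁻¹) ∧
      ∀ w ∈ Subgroup.closure (FreeGroup.of '' {j : Fin N | (j : ℕ) < m}), w ≠ 1 →
        Matrix.trace (ρ w : Matrix (Fin d) (Fin d) ℂ) ≠ (d : ℂ))
    (u v : Fin N → FreeGroup (Fin N))
    (hu : ∀ i : Fin N, m ≤ (i : ℕ) → u i ∈ Subgroup.closure (FreeGroup.of '' {j : Fin N | j < i}))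
    (hv : ∀ i : Fin N, m ≤ (i : ℕ) → v i ∈ Subgroup.closure (FreeGroup.of '' {j : Fin N | j < i}))
    (hφ : ∀ i : Fin N, m ≤ (i : ℕ) →
      φ (Multiplicative.ofAdd 1) (FreeGroup.of i) = u i * FreeGroup.of i * v i)
    (hst : ∀ i : Fin N, m ≤ (i : ℕ) →
      (∃ f ∈ Subgroup.closure (FreeGroup.of '' {j : Fin N | j < i}),
        v i = f⁻¹ * (u i)⁻¹ * φ (Multiplicative.ofAdd 1) f) ∨
      ∃ α : FreeGroup (Fin N) →* Multiplicative ℤ,
        (∀ j : Fin N, j < i → α (φ (Multiplicative.ofAdd 1) (FreeGroup.of j)) = α (FreeGroup.of j)) ∧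
          α (u i * v i) ≠ 1)
    (G : Type) [Group G] (H : Subgroup G) [H.FiniteIndex]
    (e : H →* SemidirectProduct (FreeGroup (Fin N)) (Multiplicative ℤ) φ)
    (he : Function.Injective e) :
    ∃ (K : Type) (_ : Field K) (n : ℕ) (f : G →* Matrix.GeneralLinearGroup (Fin n) K),
      CharZero K ∧ Function.Injective f :=
  Pool.Agent.Helper45.HS.final N m φ hbL hb u v hu hv hφ hst G H e he

end Pool.Agent.Results.MP_1f284c_al.VisibleSteps
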